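import Pool.Agent.W70.HR.Stm

/-!
# Project HR of helper70, part EX: few exceptional `H`
-/

set_option autoImplicit false

open Finset

namespace Pool.Agent.W902.HREx

open Pool.Agent.H361R2.PP
open Pool.Agent.W70.HR

theorem rg_nonneg (P : Finset ℕ) (a n : ℕ) : 0 ≤ rg P a n := by
  classical
  unfold rg
  split_ifs <;> norm_num

theorem rg_le (P : Finset ℕ) (V B : Finset ℕ) (hVB : V ⊆ B) (n : ℕ) :
    ((V.filter fun a => rg P a n = 1).card : ℝ) ≤ ∑ a ∈ B, rg P a n := by
  calc ((V.filter fun a => rg P a n = 1).card : ℝ) = ∑ a ∈ V.filter fun a => rg P a n = 1,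
        rg P a n := by
        rw [Finset.card_eq_sum_ones]
        push_cast
        refine Finset.sum_congr rfl fun a ha => ?_
        rw [Finset.mem_filter] at ha
        exact ha.2.symm
    _ ≤ ∑ a ∈ B, rg P a n :=
        Finset.sum_le_sum_of_subset_of_nonneg ((Finset.filter_subset _ _).trans hVB)
          fun a _ _ => rg_nonneg P a n

/-- the number of `H` with all values in a set -/
theorem card_pi (T K : ℕ) (R : Finset ℕ) :
    (Fintype.piFinset (fun _ : Fin T => Fintype.piFinset (fun _ : Fin K => R))).card =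
      R.card ^ (T * K) := by
  rw [Fintype.card_piFinset]
  simp only [Fintype.card_piFinset, Finset.prod_const, Finset.card_univ, Fintype.card_fin]
  rw [← pow_mul, mul_comm]

/-- the main counting argument -/
theorem count {T K k : ℕ} (δm δ : ℝ) (X b : ℕ) (V B : Finset ℕ) (hVB : V ⊆ B)
    (c O M x : ℝ) (hcO : 0 ≤ c * O) (hpos : 0 ≤ δ * ex X (k + 1))
    (hlow : ∀ H : Fin T → Fin K → ℕ, (∀ g i, H g i ∈ B) →
      Function.Injective (fun x : Fin T × Fin K => H x.1 x.2) →
      c * O ≤ (hits δm X b T K H : ℝ))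
    (hmom : ∑ n ∈ SI X b, (∑ a ∈ B, rg (P1 (HH X) (JJ δm X)) a n) ^ (2 * (T * K)) ≤ M)
    (hx : ((Fintype.piFinset (fun _ : Fin (k + 1) => V)).card : ℝ) * (δ * ex X (k + 1)) ≤ x) :
    (((Exc (Gd k δ X b) T K V).card : ℝ) * (c * O)) ^ 2 ≤ x * M := by
  classical
  set R : ℕ → ℝ := fun n => ∑ a ∈ B, rg (P1 (HH X) (JJ δm X)) a n with hR
  have hR0 : ∀ n, 0 ≤ R n := fun n => Finset.sum_nonneg fun a _ => rg_nonneg _ a n
  set Ys : Finset (Fin (k + 1) → ℕ) := (Fintype.piFinset (fun _ : Fin (k + 1) => V)).filter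
    (fun y => Function.Injective y ∧ (cb X b y : ℝ) < δ * ex X (k + 1)) with hYs
  set Ba : Finset ℕ := (SI X b).filter (fun n => ∃ y ∈ Ys, ∀ i, (n + y i).Prime) with hBa
  -- the size of the bad set
  have h1 : (Ba.card : ℝ) ≤ x := by
    have h2 : Ba ⊆ Ys.biUnion fun y => (SI X b).filter (fun n => ∀ i, (n + y i).Prime) := by
      intro n hn
      rw [hBa, Finset.mem_filter] at hn
      obtain ⟨hn1, y, hy, hp⟩ := hn
      exact Finset.mem_biUnion.2 ⟨y, hy, Finset.mem_filter.2 ⟨hn1, hp⟩⟩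
    have h3 : Ba.card ≤ ∑ y ∈ Ys, cb X b y := by
      refine (Finset.card_le_card h2).trans (Finset.card_biUnion_le.trans ?_)
      refine Finset.sum_le_sum fun y _ => ?_
      unfold cb
      apply le_of_eq
      congr
    have h4 : (Ba.card : ℝ) ≤ ∑ y ∈ Ys, (cb X b y : ℝ) := by exact_mod_cast h3
    have h5 : ∑ y ∈ Ys, (cb X b y : ℝ) ≤ ∑ _y ∈ Ys, δ * ex X (k + 1) :=
      Finset.sum_le_sum fun y hy => by
        rw [hYs, Finset.mem_filter] at hy
        exact hy.2.2.le
    rw [Finset.sum_const, nsmul_eq_mul] at h5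
    refine h4.trans (h5.trans (le_trans ?_ hx))
    apply mul_le_mul_of_nonneg_right _ hpos
    exact_mod_cast Finset.card_le_card (Finset.filter_subset _ _)
  -- the exceptional `H`
  have h2 : ∀ H ∈ Exc (Gd k δ X b) T K V, c * O ≤
      ((Ba.filter fun n => ∀ g i, rg (P1 (HH X) (JJ δm X)) (H g i) n = 1).card : ℝ) := by
    intro H hH
    unfold Exc at hH
    rw [Finset.mem_filter, Fintype.mem_piFinset] at hH
    obtain ⟨hH1, hH2, hH3⟩ := hH
    have hHV : ∀ g i, H g i ∈ V := fun g i => Fintype.mem_piFinset.1 (hH1 g) i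
    refine (hlow H (fun g i => hVB (hHV g i)) hH2).trans ?_
    have h3 : hits δm X b T K H ≤
        (Ba.filter fun n => ∀ g i, rg (P1 (HH X) (JJ δm X)) (H g i) n = 1).card := by
      unfold hits
      apply Finset.card_le_card
      intro n hn
      rw [Finset.mem_filter] at hn
      obtain ⟨hn1, hn2, hn3⟩ := hn
      refine Finset.mem_filter.2 ⟨?_, hn2⟩
      rw [hBa, Finset.mem_filter]
      refine ⟨hn1, ?_⟩
      -- the set of the classes which are hit
      have h4 : ∀ g : Fin T, ∃ i : Fin K, (∃ j, (n + H g j).Prime) → (n + H g i).Prime := by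
        intro g
        by_cases h : ∃ j, (n + H g j).Prime
        · obtain ⟨j, hj⟩ := h
          exact ⟨j, fun _ => hj⟩
        · by_cases hK : Nonempty (Fin K)
          · exact ⟨hK.some, fun h' => absurd h' h⟩
          · exfalso
            rw [not_nonempty_iff] at hK
            have h5 : ((univ : Finset (Fin T)).filter
                (fun g => ∃ i, (n + H g i).Prime)).card = 0 := by
              rw [Finset.card_eq_zero, Finset.filter_eq_empty_iff]
              rintro g _ ⟨i, _⟩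
              exact hK.false i
            have h6 : T = 0 := by
              have h7 : T ≤ 4 * ((univ : Finset (Fin T)).filter
                (fun g => ∃ i, (n + H g i).Prime)).card := by
                convert hn3
              omega
            subst h6
            exact Fin.elim0 g
      choose cc hcc using h4
      have h5 : ¬ Gd k δ X b (((univ : Finset (Fin T)).filter
          (fun g => ∃ i, (n + H g i).Prime)).image (fun g => H g (cc g))) := by
        intro hG
        refine hH3 ⟨(univ : Finset (Fin T)).filter (fun g => ∃ i, (n + H g i).Prime), cc, ?_, ?_⟩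
        · convert hn3
        · convert hG
      unfold Gd at h5
      push Not at h5
      obtain ⟨y, hy1, hy2, hy3⟩ := h5
      have h6 : ∀ i, y i ∈ V ∧ (n + y i).Prime := by
        intro i
        obtain ⟨g, hg, he⟩ := Finset.mem_image.1 (hy2 i)
        rw [Finset.mem_filter] at hg
        rw [← he]
        exact ⟨hHV _ _, hcc g hg.2⟩
      exact ⟨y, Finset.mem_filter.2 ⟨Fintype.mem_piFinset.2 fun i => (h6 i).1, hy1, hy3⟩,
        fun i => (h6 i).2⟩
    exact_mod_cast h3
  have h3 : ((Exc (Gd k δ X b) T K V).card : ℝ) * (c * O) ≤ ∑ n ∈ Ba, R n ^ (T * K) := by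
    calc ((Exc (Gd k δ X b) T K V).card : ℝ) * (c * O) =
        ∑ _H ∈ Exc (Gd k δ X b) T K V, c * O := by rw [Finset.sum_const, nsmul_eq_mul]
      _ ≤ ∑ H ∈ Exc (Gd k δ X b) T K V,
          ((Ba.filter fun n => ∀ g i, rg (P1 (HH X) (JJ δm X)) (H g i) n = 1).card : ℝ) :=
          Finset.sum_le_sum h2
      _ = ∑ H ∈ Exc (Gd k δ X b) T K V, ∑ n ∈ Ba,
          (if ∀ g i, rg (P1 (HH X) (JJ δm X)) (H g i) n = 1 then (1 : ℝ) else 0) := by
          refine Finset.sum_congr rfl fun H _ => ?_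
          rw [Finset.sum_boole]
      _ = ∑ n ∈ Ba, ∑ H ∈ Exc (Gd k δ X b) T K V,
          (if ∀ g i, rg (P1 (HH X) (JJ δm X)) (H g i) n = 1 then (1 : ℝ) else 0) :=
          Finset.sum_comm
      _ ≤ ∑ n ∈ Ba, R n ^ (T * K) := by
          refine Finset.sum_le_sum fun n _ => ?_
          rw [Finset.sum_boole]
          have h4 : (Exc (Gd k δ X b) T K V).filter
              (fun H => ∀ g i, rg (P1 (HH X) (JJ δm X)) (H g i) n = 1) ⊆
              Fintype.piFinset (fun _ : Fin T => Fintype.piFinset (fun _ : Fin K =>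
                V.filter fun a => rg (P1 (HH X) (JJ δm X)) a n = 1)) := by
            intro H hH
            rw [Finset.mem_filter] at hH
            obtain ⟨hH1, hH2⟩ := hH
            unfold Exc at hH1
            rw [Finset.mem_filter, Fintype.mem_piFinset] at hH1
            rw [Fintype.mem_piFinset]
            intro g
            rw [Fintype.mem_piFinset]
            intro i
            exact Finset.mem_filter.2 ⟨Fintype.mem_piFinset.1 (hH1.1 g) i, hH2 g i⟩
          have h5 := Finset.card_le_card h4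
          rw [card_pi] at h5
          calc _ ≤ (((V.filter fun a => rg (P1 (HH X) (JJ δm X)) a n = 1).card ^ (T * K) : ℕ) : ℝ) := by
                exact_mod_cast h5
            _ ≤ R n ^ (T * K) := by
                push_cast
                exact pow_le_pow_left₀ (Nat.cast_nonneg _) (rg_le _ V B hVB n) _
  have h4 : (∑ n ∈ Ba, R n ^ (T * K)) ^ 2 ≤ x * M := by
    refine (sq_sum_le_card_mul_sum_sq).trans ?_
    have h5 : ∑ n ∈ Ba, (R n ^ (T * K)) ^ 2 ≤ M := by
      refine le_trans ?_ hmom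
      have h6 : ∀ n, (R n ^ (T * K)) ^ 2 = R n ^ (2 * (T * K)) := fun n => by
        rw [← pow_mul, mul_comm]
      simp only [h6]
      exact Finset.sum_le_sum_of_subset_of_nonneg (Finset.filter_subset _ _)
        fun n _ _ => pow_nonneg (hR0 n) _
    have h7 : 0 ≤ ∑ n ∈ Ba, (R n ^ (T * K)) ^ 2 := Finset.sum_nonneg fun n _ => by positivity
    have hx0 : 0 ≤ x := le_trans (mul_nonneg (Nat.cast_nonneg _) hpos) hx
    exact mul_le_mul h1 h5 h7 hx0
  refine le_trans ?_ h4
  exact pow_le_pow_left₀ (mul_nonneg (Nat.cast_nonneg _) hcO) h3 2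

theorem ex_few : S_RM → S_MV → Cnt → Wtx → S_EX := by
  classical
  intro hRM hMV hCnt _ k T K hT hK hMT Λ η ε hΛ hη hε
  obtain ⟨δm, c, hδm0, hδm1, hc, X₁, hX₁⟩ := hMT Λ (2 * (T * K)) hΛ
  obtain ⟨C, X₂, hC, hX₂⟩ := hRM (2 * (T * K)) Λ δm hΛ hδm0 hδm1
  obtain ⟨cV, hcV, hMV⟩ := hMV
  obtain ⟨X₃, hX₃⟩ := hMV δm hδm0 (by linarith)
  obtain ⟨X₄, hX₄⟩ := hCnt 1 Λ Λ one_pos hΛ hΛ
  obtain ⟨P, hP⟩ : ∃ P : ℝ, P = ε * c * (η * cV / δm) ^ (T * K) := ⟨_, rfl⟩
  obtain ⟨Q, hQ⟩ : ∃ Q : ℝ, Q = (2 * Λ) ^ (k + 1) * C := ⟨_, rfl⟩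
  have hP0 : 0 < P := by rw [hP]; positivity
  have hQ0 : 0 < Q := by rw [hQ]; positivity
  refine ⟨P ^ 2 / Q, by positivity, X₁ + X₂ + X₃ + X₄ + 16, ?_⟩
  intro X hX b hb V hV hVc
  obtain ⟨hVV, hU, hlow⟩ := hX₁ X (by omega) b hb
  have hmom := hX₂ X (by omega) b hb hU
  have hmv := hX₃ X (by omega)
  have hcnt := hX₄ X (by omega) b 0 (Λ * Real.log X) le_rfl (by simp) le_rfl
  obtain ⟨L, hL⟩ : ∃ L : ℝ, L = Real.log X := ⟨_, rfl⟩
  have hL0 : 0 < L := by
    rw [hL]
    apply Real.log_pos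
    have : (16 : ℝ) ≤ X := by exact_mod_cast (by omega : 16 ≤ X)
    linarith
  have hX0 : (0 : ℝ) < X := by exact_mod_cast (by omega : 0 < X)
  have hW0 : (0 : ℝ) < Wm X := by
    exact_mod_cast primorial_pos _
  have hφ0 : (0 : ℝ) < Nat.totient (Wm X) := by
    have : 0 < Wm X := primorial_pos _
    exact_mod_cast Nat.totient_pos.2 this
  obtain ⟨φ, hφ⟩ : ∃ φ : ℝ, φ = (Nat.totient (Wm X) : ℝ) / Wm X := ⟨_, rfl⟩
  have hφp : 0 < φ := by rw [hφ]; positivity
  rw [← hL, ← hφ] at hVc hmv hcnt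
  -- the number of the admissible shifts
  have hBw : ((Bw Λ X b).card : ℝ) ≤ 2 * Λ * L * φ := by
    have h1 : (BB X b ⌊Λ * L⌋₊).filter (fun a : ℕ => (0 : ℝ) < a ∧ (a : ℝ) ≤ Λ * L) =
        Bw Λ X b := by
      unfold Bw
      rw [← hL]
      apply Finset.filter_true_of_mem
      intro a ha
      unfold BB at ha
      rw [Finset.mem_filter, Finset.mem_Icc] at ha
      refine ⟨by exact_mod_cast ha.1.1, ?_⟩
      exact (Nat.cast_le.2 ha.1.2).trans (Nat.floor_le (by positivity))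
    rw [h1, sub_zero, one_mul] at hcnt
    have h2 := (abs_le.1 hcnt).2
    linarith
  have hVB : (V.card : ℝ) ≤ 2 * Λ * L * φ := by
    refine le_trans ?_ hBw
    exact_mod_cast Finset.card_le_card hV
  have hex : ex X (k + 1) = (X : ℝ) / Wm X * (1 / (φ * L)) ^ (k + 1) := by
    unfold ex
    rw [← hL, hφ]
    congr 2
    field_simp
  have hex0 : 0 < ex X (k + 1) := by rw [hex]; positivity
  have hx0 : 0 < (X : ℝ) / Wm X := by positivity
  have hmain := count (T := T) (K := K) (k := k) δm (P ^ 2 / Q) X b V (Bw Λ X b) hV c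
    (Om δm X (T * K)) (C * ((X : ℝ) / Wm X)) (P ^ 2 / Q * ((2 * Λ) ^ (k + 1) * ((X : ℝ) / Wm X)))
    (by unfold Om; positivity) (by positivity) hlow hmom (by
      rw [Fintype.card_piFinset, Finset.prod_const, Finset.card_univ, Fintype.card_fin, hex]
      push_cast
      have h1 : (V.card : ℝ) ^ (k + 1) * (1 / (φ * L)) ^ (k + 1) ≤ (2 * Λ) ^ (k + 1) := by
        rw [← mul_pow]
        refine pow_le_pow_left₀ (by positivity) ?_ _
        rw [mul_one_div, div_le_iff₀ (by positivity)]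
        linarith
      calc (V.card : ℝ) ^ (k + 1) * (P ^ 2 / Q * ((X : ℝ) / Wm X * (1 / (φ * L)) ^ (k + 1))) =
          P ^ 2 / Q * (((V.card : ℝ) ^ (k + 1) * (1 / (φ * L)) ^ (k + 1)) * ((X : ℝ) / Wm X)) := by
            ring
        _ ≤ P ^ 2 / Q * ((2 * Λ) ^ (k + 1) * ((X : ℝ) / Wm X)) := by gcongr)
  have hR : P ^ 2 / Q * ((2 * Λ) ^ (k + 1) * ((X : ℝ) / Wm X)) * (C * ((X : ℝ) / Wm X)) =
      (P * ((X : ℝ) / Wm X)) ^ 2 := by
    have h1 : P ^ 2 / Q * Q = P ^ 2 := div_mul_cancel₀ _ hQ0.ne'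
    calc P ^ 2 / Q * ((2 * Λ) ^ (k + 1) * ((X : ℝ) / Wm X)) * (C * ((X : ℝ) / Wm X)) =
        P ^ 2 / Q * ((2 * Λ) ^ (k + 1) * C) * ((X : ℝ) / Wm X) ^ 2 := by ring
      _ = _ := by rw [← hQ, h1]; ring
  rw [hR] at hmain
  obtain ⟨E, hE⟩ : ∃ E : ℝ, E = ((Exc (Gd k (P ^ 2 / Q) X b) T K V).card : ℝ) := ⟨_, rfl⟩
  rw [← hE] at hmain ⊢
  have hE0 : 0 ≤ E := by rw [hE]; exact Nat.cast_nonneg _
  have hOm : Om δm X (T * K) = (X : ℝ) / Wm X * VV δm X ^ (T * K) := rfl
  have h1 : E * (c * Om δm X (T * K)) ≤ P * ((X : ℝ) / Wm X) :=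
    (pow_le_pow_iff_left₀ (by rw [hOm]; positivity) (by positivity) two_ne_zero).1 hmain
  rw [hOm] at h1
  have h2 : E * VV δm X ^ (T * K) ≤ ε * (η * cV / δm) ^ (T * K) := by
    have h3 : (E * VV δm X ^ (T * K)) * (c * ((X : ℝ) / Wm X)) ≤
        (ε * (η * cV / δm) ^ (T * K)) * (c * ((X : ℝ) / Wm X)) := by
      calc (E * VV δm X ^ (T * K)) * (c * ((X : ℝ) / Wm X)) =
          E * (c * ((X : ℝ) / Wm X * VV δm X ^ (T * K))) := by ring
        _ ≤ P * ((X : ℝ) / Wm X) := h1
        _ = _ := by rw [hP]; ring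
    exact le_of_mul_le_mul_right h3 (by positivity)
  have h4 : η * cV / δm ≤ VV δm X * V.card := by
    calc η * cV / δm ≤ η * (VV δm X * φ * (δm * L)) / δm := by gcongr
      _ = VV δm X * (η * (L * φ)) := by field_simp
      _ ≤ VV δm X * V.card := by gcongr
  have h5 : (η * cV / δm) ^ (T * K) ≤ VV δm X ^ (T * K) * (V.card : ℝ) ^ (T * K) := by
    rw [← mul_pow]
    exact pow_le_pow_left₀ (by positivity) h4 _
  have h6 : E * VV δm X ^ (T * K) ≤ (ε * (V.card : ℝ) ^ (T * K)) * VV δm X ^ (T * K) := by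
    refine h2.trans ?_
    calc ε * (η * cV / δm) ^ (T * K) ≤ ε * (VV δm X ^ (T * K) * (V.card : ℝ) ^ (T * K)) := by
          gcongr
      _ = _ := by ring
  exact le_of_mul_le_mul_right h6 (by positivity)

end Pool.Agent.W902.HREx
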